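import Pool.Agent.V1157.MJ.Defs
import Pool.Agent.TH133.SelfDual
import Pool.Agent.TH133.Murre

/-!
# Relations between the conjectures of Murre
-/

open CategoryTheory AlgebraicGeometry

universe u v w

namespace Pool.Agent.V1157.MJ

open Pool.Agent.H914 Pool.Agent.H914.VarClass Pool.Agent.H914.VarClass.Obj Pool.Agent.W492.BB
  Pool.Agent.W550.Corr Pool.Agent.TH133

set_option linter.unusedSectionVars false

variable {k : Type u} [Field k] {𝒱 : VarClass k} {C : TheoryData.{u, v, 0} 𝒱 ℚ}
  [hC : IsChowProj C] {K : Type w} [Field K]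
  {H : WeilTheoryData.{u, v, w} C K} [hH : IsWeilProj H] {X Y Z W : 𝒱.Obj}

include hC hH

/-- **(D) implies the first half of (B)**, for the same decomposition. -/
lemma zero_of_D {π : ℕ → C.A (X.prod X)} (hπ : IsCK H X π) (h : DFor H X π) {i j : ℕ} {x : C.A X}
    (hx : x ∈ C.gr X i) (hj : 2 * i < j) : C.act (π j) x = 0 := by
  have h0 : H.cl (C.act (π j) x) = 0 := by
    rw [cl_act H]
    exact hπ.act_ne j (2 * i) _ (by omega) (H.cl_mem hx)
  have h1 : C.act (π j) x ∈ ckFil C π i 1 := (h i _).2 ⟨act_mem0 C (hπ.deg j) hx, h0⟩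
  rw [hπ.mem_ckFil] at h1
  have h2 := h1.2 j (by omega)
  rw [← C.act_comp, hπ.idem] at h2
  exact h2

lemma murreB0_of_D (X : 𝒱.Obj) (h : MurreD H X) : MurreB0 H X := by
  rw [murreB0_iff]
  intro π hπ i j x hx hj
  exact zero_of_D hπ (h π hπ) hx hj

/-- **(D) for `X × X` implies that homologically trivial correspondences lower the weights.** -/
lemma strictlyLowers_of_D (X : 𝒱.Obj) (h : MurreD H (X.prod X)) : StrictlyLowers H X := by
  intro π hπ γ hγ hcl a b hab
  by_cases ha : a ≤ 2 * X.dim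
  · apply comp_zero_of_prod (H := H) hπ hπ ha
    have h1 : γ ∈ ckFil C (prodCK C (dualCK C π) π) X.dim 1 :=
      (h _ (hπ.dual.prod hπ) X.dim γ).2 ⟨hγ, hcl⟩
    rw [(hπ.dual.prod hπ).mem_ckFil] at h1
    exact h1.2 _ (by omega)
  · rw [hπ.out a (by omega), zero_comp, zero_comp]

omit hC hH in
/-- A class as an element of the ring of correspondences. -/
def toC (γ : C.A (X.prod X)) : Cor C X := γ

omit hC hH in
/-- Compositions of lists in the ring of correspondences. -/
noncomputable def cL (l : List (C.A (X.prod X))) : Cor C X := compList C X l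

omit hH in
lemma cL_nil : cL (C := C) (X := X) [] = 1 := rfl

omit hH in
lemma cL_cons (γ : C.A (X.prod X)) (l : List (C.A (X.prod X))) :
    cL (C := C) (γ :: l) = cL l * toC γ := rfl

lemma nilpotent_of_strictlyLowers (X : 𝒱.Obj) (hA : ∃ π, IsCK H X π) (h : StrictlyLowers H X) :
    NilpotentOfIndex H X (2 * X.dim + 1) := by
  obtain ⟨π, hπ⟩ := hA
  let P : ℕ → Cor C X := π
  have hP : IsCK H X P := hπ
  have key : ∀ l : List (C.A (X.prod X)), (∀ γ ∈ l, C.Deg X.dim γ ∧ H.cl γ = 0) →
      ∀ a b : ℕ, a < b + l.length → P b * cL l * P a = 0 := by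
    intro l
    induction l with
    | nil =>
      intro _ a b hab
      rw [cL_nil, mul_one, hP.mul_eq, if_neg]
      simp only [List.length_nil] at hab
      omega
    | cons γ l ih =>
      intro hl a b hab
      rw [List.length_cons] at hab
      have hγ := hl γ (List.mem_cons_self ..)
      have ih' := ih fun x hx => hl x (List.mem_cons_of_mem _ hx)
      have h1 : P b * cL (γ :: l) * P a =
          ∑ c ∈ Finset.range (2 * X.dim + 1), (P b * cL l * P c) * (P c * toC γ * P a) := by
        have e1 : ∀ c, (P b * cL l * P c) * (P c * toC γ * P a) =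
            P b * cL l * P c * (toC γ * P a) := by
          intro c
          have e2 : P c * P c = P c := by rw [hP.mul_eq, if_pos rfl]
          calc _ = P b * cL l * (P c * P c) * (toC γ * P a) := by
                simp only [mul_assoc]
            _ = _ := by rw [e2]
        rw [Finset.sum_congr rfl fun c _ => e1 c, ← Finset.sum_mul, ← Finset.mul_sum, hP.sum_eq,
          mul_one, cL_cons]
        simp only [mul_assoc]
      rw [h1]
      apply Finset.sum_eq_zero
      intro c _
      by_cases hc : c < b + l.length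
      · rw [ih' c b hc, zero_mul]
      · have h2 : P c * toC γ * P a = 0 := by
          rw [mul_assoc]
          exact h π hπ γ hγ.1 hγ.2 a c (by omega)
        rw [h2, mul_zero]
  intro l hl hl'
  have h1 := key l hl'
  have h2 : cL l = (∑ b ∈ Finset.range (2 * X.dim + 1), P b) * cL l *
      (∑ a ∈ Finset.range (2 * X.dim + 1), P a) := by
    rw [hP.sum_eq, one_mul, mul_one]
  rw [Finset.sum_mul, Finset.sum_mul] at h2
  have h3 : cL l = 0 := by
    rw [h2]
    apply Finset.sum_eq_zero
    intro b _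
    rw [Finset.mul_sum]
    apply Finset.sum_eq_zero
    intro a ha
    rw [Finset.mem_range] at ha
    exact h1 a b (by omega)
  exact h3

omit hH in
lemma cL_replicate (γ : C.A (X.prod X)) (n : ℕ) :
    cL (C := C) (List.replicate n γ) = (toC γ) ^ n := by
  induction n with
  | zero => rw [List.replicate_zero, pow_zero]; rfl
  | succ n ih =>
    rw [List.replicate_succ, pow_succ, ← ih]
    rfl

lemma unique_of_nilpotent (X : 𝒱.Obj) {n : ℕ} (h : NilpotentOfIndex H X n) :
    UniqueUpToConjugation H X := by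
  intro π π' hπ hπ'
  let P : ℕ → Cor C X := π
  have hP : IsCK H X P := hπ
  let Q : ℕ → Cor C X := π'
  have hQ : IsCK H X Q := hπ'
  let s : Cor C X := ∑ i ∈ Finset.range (2 * X.dim + 1), Q i * P i
  have hs : s ∈ cor0 C X := (cor0 C X).sum_mem fun i _ => (cor0 C X).mul_mem (hQ.deg i) (hP.deg i)
  have hsact : ∀ a : H.A X, actH C X H s a = a := by
    have h1 : actH C X H s = LinearMap.id := by
      apply ext_gr H
      intro m a ha
      rw [LinearMap.id_apply]
      simp only [s]
      rw [map_sum, LinearMap.sum_apply]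
      have e1 : ∀ i, actH C X H (Q i * P i) a = actH C X H (P i) a := by
        intro i
        rw [map_mul, Module.End.mul_apply, hP.actH_eq' i m ha]
        split_ifs with hm
        · rw [hQ.actH_eq' i m ha, if_pos hm]
        · rw [map_zero]
      rw [Finset.sum_congr rfl fun i _ => e1 i, ← LinearMap.sum_apply, ← map_sum, hP.sum_eq,
        map_one]
      rfl
    intro a
    rw [h1]
    rfl
  let ν : Cor C X := 1 - s
  have hν : ν ∈ cor0 C X := (cor0 C X).sub_mem (cor0 C X).one_mem hs
  have hνcl : H.cl (X := X.prod X) ν = 0 := by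
    apply hom_zero_of_act H
    intro a
    have h1 : actH C X H ν a = 0 := by
      simp only [ν]
      rw [map_sub, map_one, LinearMap.sub_apply, hsact]
      exact sub_self _
    exact h1
  have hnil : ν ^ n = 0 := by
    have e1 : cL (C := C) (List.replicate n (ν : C.A (X.prod X))) = ν ^ n := cL_replicate _ n
    rw [← e1]
    refine h _ (List.length_replicate ..) ?_
    intro γ hγ
    rw [List.eq_of_mem_replicate hγ]
    exact ⟨hν, hνcl⟩
  let t : Cor C X := ∑ i ∈ Finset.range n, ν ^ i
  have hsν : s = 1 - ν := by simp only [ν]; abel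
  have hst : s * t = 1 := by
    rw [hsν]
    simp only [t]
    rw [mul_neg_geom_sum, hnil, sub_zero]
  have hts : t * s = 1 := by
    rw [hsν]
    simp only [t]
    rw [geom_sum_mul_neg, hnil, sub_zero]
  have ht : t ∈ cor0 C X := (cor0 C X).sum_mem fun i _ => (cor0 C X).pow_mem hν i
  refine ⟨s, t, hs, ht, ?_, ?_, hsact, ?_⟩
  · exact hts
  · exact hst
  · intro i
    have h1 : s * P i = Q i * s := by
      simp only [s]
      rw [Finset.sum_mul, Finset.mul_sum]
      apply Finset.sum_congr rfl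
      intro j _
      rw [mul_assoc, hP.mul_eq, ← mul_assoc (Q i), hQ.mul_eq]
      by_cases hij : j = i
      · subst hij
        rw [if_pos rfl, if_pos rfl]
      · rw [if_neg hij, if_neg (Ne.symm hij), mul_zero, zero_mul]
    have h2 : Q i = s * (P i * t) := by
      rw [← mul_assoc, h1, mul_assoc, hst, mul_one]
    exact h2

lemma bFor_of {π : ℕ → C.A (X.prod X)} (hπ : IsCK H X π) (h0 : MurreB0 H X) (h1 : MurreB1 H X) :
    BFor C X π := fun i => ⟨h0 π hπ i, h1 π hπ i⟩

omit hC hH in
lemma murreC0_of_C (X : 𝒱.Obj) (h : MurreC H X) : MurreC0 H X :=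
  fun π π' hπ hπ' i => h π π' hπ hπ' i 0

omit hC hH in
theorem main (𝒱 : VarClass k) (C : TheoryData.{u, v, 0} 𝒱 ℚ) [hC : IsChowProj C] (K : Type w)
    [Field K] (H : WeilTheoryData.{u, v, w} C K) [hH : IsWeilProj H] :
    (∀ X : 𝒱.Obj, (MurreC0 H X → MurreB0 H X) ∧ (MurreD H X → MurreB0 H X) ∧
      (MurreB0 H (X.prod X) → MurreC H X) ∧
      ((∃ π, IsCK H X π) → MurreB0 H (X.prod X) → ∃ π, IsCK H X π ∧ IsSelfDual C π) ∧
      ((∃ π, IsCK H X π) → MurreD H (X.prod X) →
        StrictlyLowers H X ∧ NilpotentOfIndex H X (2 * X.dim + 1) ∧ UniqueUpToConjugation H X)) ∧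
    ((∀ X : 𝒱.Obj, MurreC H X) ↔ ∀ X : 𝒱.Obj, MurreC0 H X) ∧
    ((∀ X : 𝒱.Obj, MurreC H X) ↔ ∀ X : 𝒱.Obj, MurreB0 H X) ∧
    ((∀ X : 𝒱.Obj, Murre H X) ↔
      ∀ X : 𝒱.Obj, (∃ π, IsCK H X π) ∧ MurreB1 H X ∧ MurreD H X) := by
  refine ⟨fun X => ⟨murreB0_of_C0 X, murreB0_of_D X, murreC_of_B0 X, ?_, ?_⟩, ?_, ?_, ?_⟩
  · rintro ⟨π, hπ⟩ h
    exact exists_selfDual_of_B0 X h hπ
  · intro hA h
    have h1 := strictlyLowers_of_D X h
    have h2 := nilpotent_of_strictlyLowers X hA h1
    exact ⟨h1, h2, unique_of_nilpotent X h2⟩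
  · exact ⟨fun h X => murreC0_of_C X (h X), fun h X => murreC_of_B0 X (murreB0_of_C0 _ (h _))⟩
  · exact ⟨fun h X => murreB0_of_C0 X (murreC0_of_C X (h X)), fun h X => murreC_of_B0 X (h _)⟩
  · constructor
    · intro h X
      obtain ⟨⟨π, hπ, hB, hD⟩, hCX⟩ := h X
      refine ⟨⟨π, hπ⟩, ?_, ?_⟩
      · intro π' hπ' i
        rw [hCX π' π hπ' hπ i (i + 1)]
        exact (hB i).2
      · intro π' hπ' i x
        rw [hCX π' π hπ' hπ i 1]
        exact hD i x
    · intro h X
      obtain ⟨⟨π, hπ⟩, hB1, hD⟩ := h X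
      have hB0 : ∀ X : 𝒱.Obj, MurreB0 H X := fun X => murreB0_of_D X (h X).2.2
      exact ⟨⟨π, hπ, bFor_of hπ (hB0 X) hB1, hD π hπ⟩, murreC_of_B0 X (hB0 _)⟩

end Pool.Agent.V1157.MJ
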