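import Pool.Agent.TH133.Defs

/-!
# The conjectures of Murre for one Chow-Kunneth decomposition
-/

open CategoryTheory AlgebraicGeometry

universe u v w

namespace Pool.Agent.V1157.MJ

open Pool.Agent.H914 Pool.Agent.H914.VarClass Pool.Agent.H914.VarClass.Obj Pool.Agent.W492.BB
  Pool.Agent.W550.Corr Pool.Agent.TH133

variable {k : Type u} [Field k] {𝒱 : VarClass k} {C : TheoryData.{u, v, 0} 𝒱 ℚ} {K : Type w}
  [Field K] (H : WeilTheoryData.{u, v, w} C K)

/-- Murre's conjecture (B) for the decomposition `π` of `X`: `π j` acts as zero on `CH^i(X)` for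
`j > 2 i` and for `j < i`, that is `F^0 CH^i(X) = CH^i(X)` and `F^(i+1) CH^i(X) = 0` for the
filtration attached to `π`. -/
def BFor (C : TheoryData.{u, v, 0} 𝒱 ℚ) (X : 𝒱.Obj) (π : ℕ → C.A (X.prod X)) : Prop :=
  ∀ i : ℕ, ckFil C π i 0 = C.gr X i ∧ ckFil C π i (i + 1) = ⊥

/-- Murre's conjecture (D) for the decomposition `π` of `X`: for the filtration attached to `π`,
`F^1 CH^i(X)` is the group of homologically trivial cycles. -/
def DFor (X : 𝒱.Obj) (π : ℕ → C.A (X.prod X)) : Prop :=
  ∀ (i : ℕ) (x : C.A X), x ∈ ckFil C π i 1 ↔ C.Deg i x ∧ H.cl x = 0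

/-- The conjectures of Murre for `X`: there is a Chow-Kunneth decomposition (A) which satisfies (B)
and (D), and the filtration does not depend on the decomposition (C). -/
def Murre (X : 𝒱.Obj) : Prop :=
  (∃ π, IsCK H X π ∧ BFor C X π ∧ DFor H X π) ∧ MurreC H X

end Pool.Agent.V1157.MJ
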