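import Pool.Agent.TH133.Dual
import Pool.Agent.TH133.Defs

/-!
# Murre's conjectures for the middle-dimensional cycles of self-products: definitions
-/

open CategoryTheory AlgebraicGeometry

universe u v w

namespace Pool.Agent.V1157.MJ

open Pool.Agent.H914 Pool.Agent.H914.VarClass Pool.Agent.H914.VarClass.Obj Pool.Agent.W492.BB
  Pool.Agent.W550.Corr Pool.Agent.TH133

variable {k : Type u} [Field k] {𝒱 : VarClass k} {C : TheoryData.{u, v, 0} 𝒱 ℚ}
  {K : Type w} [Field K]

/-- The dual `π'` of the Chow-Kunneth decomposition `π` of `X`, `π'_i` being the transpose of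
`π_(2 dim X - i)`, and the product decomposition `π' × ρ` of `X × X`. -/
noncomputable def dprod (C : TheoryData.{u, v, 0} 𝒱 ℚ) {X : 𝒱.Obj}
    (π ρ : ℕ → C.A (X.prod X)) : ℕ → C.A ((X.prod X).prod (X.prod X)) :=
  fun n => ∑ i ∈ Finset.range (n + 1), tens C (if i ≤ 2 * X.dim then tp C (π (2 * X.dim - i)) else 0)
    (ρ (n - i))

/-- Murre's conjecture (D) for the group `CH^d(X × X)`, `d = dim X`, and the product
decompositions: the homologically trivial classes lie in `F^1`. -/
def MidD (H : WeilTheoryData.{u, v, w} C K) (X : 𝒱.Obj) : Prop :=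
  ∀ π ρ, IsCK H X π → IsCK H X ρ → ∀ γ : C.A (X.prod X), C.Deg X.dim γ → H.cl γ = 0 →
    γ ∈ ckFil C (dprod C π ρ) X.dim 1

/-- The first half of Murre's conjecture (B) for the group `CH^d(X × X)`, `d = dim X`, and the
product decompositions: `F^0 CH^d(X × X) = CH^d(X × X)`. -/
def MidB0 (H : WeilTheoryData.{u, v, w} C K) (X : 𝒱.Obj) : Prop :=
  ∀ π ρ, IsCK H X π → IsCK H X ρ → ∀ γ : C.A (X.prod X), C.Deg X.dim γ →
    γ ∈ ckFil C (dprod C π ρ) X.dim 0

/-- Self-correspondences of degree zero of `X` do not raise the weights: `ρ_b ∘ γ ∘ π_a = 0` for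
`b > a` and all Chow-Kunneth decompositions `π`, `ρ`. -/
def DoesNotRaise (H : WeilTheoryData.{u, v, w} C K) (X : 𝒱.Obj) : Prop :=
  ∀ π ρ, IsCK H X π → IsCK H X ρ → ∀ γ : C.A (X.prod X), C.Deg X.dim γ →
    ∀ a b : ℕ, a < b → C.comp (C.comp (π a) γ) (ρ b) = 0

/-- Homologically trivial self-correspondences of degree zero of `X` do not raise the weights in
the Chow groups of `X`: `π_b γ π_a x = 0` for `b > a` and all classes `x`. -/
def HomDoesNotRaise (H : WeilTheoryData.{u, v, w} C K) (X : 𝒱.Obj)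
    (π : ℕ → C.A (X.prod X)) : Prop :=
  ∀ γ : C.A (X.prod X), C.Deg X.dim γ → H.cl γ = 0 → ∀ a b : ℕ, a < b →
    ∀ (i : ℕ) (x : C.A X), C.Deg i x → C.act (π b) (C.act γ (C.act (π a) x)) = 0

end Pool.Agent.V1157.MJ
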