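import Pool.Agent.V1157.MJ.Main
import Pool.Agent.V1157.MJ.MidDefs

/-!
# Murre's conjectures for the middle-dimensional cycles of self-products
-/

open CategoryTheory AlgebraicGeometry

universe u v w

namespace Pool.Agent.V1157.MJ

open Pool.Agent.H914 Pool.Agent.H914.VarClass Pool.Agent.H914.VarClass.Obj Pool.Agent.W492.BB
  Pool.Agent.W550.Corr Pool.Agent.TH133

set_option linter.unusedSectionVars false

variable {k : Type u} [Field k] {𝒱 : VarClass k} {C : TheoryData.{u, v, 0} 𝒱 ℚ}
  {K : Type w} [Field K]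

variable [hC : IsChowProj C] {H : WeilTheoryData.{u, v, w} C K} [hH : IsWeilProj H]
  {X Y Z W : 𝒱.Obj}

include hC hH

omit hC hH in
lemma dprod_eq (π ρ : ℕ → C.A (X.prod X)) : dprod C π ρ = prodCK C (dualCK C π) ρ := rfl

/-- The components of a class of `CH(X × X)`. -/
lemma act_dprod {π ρ : ℕ → C.A (X.prod X)} (n : ℕ) (γ : C.A (X.prod X)) :
    C.act (dprod C π ρ n) γ = ∑ i ∈ Finset.range (n + 1),
      if i ≤ 2 * X.dim then C.comp (C.comp (π (2 * X.dim - i)) γ) (ρ (n - i)) else 0 := by
  unfold dprod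
  rw [act_sum]
  apply Finset.sum_congr rfl
  intro i _
  rw [act_tens C (ch_comm C)]
  split_ifs with h
  · rw [tp_tp]
  · rw [tp_zero, zero_comp, zero_comp]

lemma midB0_iff (X : 𝒱.Obj) : MidB0 H X ↔ DoesNotRaise H X := by
  constructor
  · intro h π ρ hπ hρ γ hγ a b hab
    by_cases ha : a ≤ 2 * X.dim
    · apply comp_zero_of_prod (H := H) hπ hρ ha
      have h1 := h π ρ hπ hρ γ hγ
      rw [dprod_eq, (hπ.dual.prod hρ).mem_ckFil] at h1
      exact h1.2 _ (by omega)
    · rw [hπ.out a (by omega), zero_comp, zero_comp]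
  · intro h π ρ hπ hρ γ hγ
    rw [dprod_eq, (hπ.dual.prod hρ).mem_ckFil]
    refine ⟨hγ, fun n hn => ?_⟩
    rw [← dprod_eq, act_dprod (H := H)]
    apply Finset.sum_eq_zero
    intro i _
    split_ifs with hi
    · exact h π ρ hπ hρ γ hγ _ _ (by omega)
    · rfl

/-- Any class of `CH^i(X)` is the image of a class under a correspondence. -/
lemma exists_corr (X : 𝒱.Obj) {i : ℕ} {x : C.A X} (hx : x ∈ C.gr X i) {π : ℕ → C.A (X.prod X)}
    (hπ : IsCK H X π) : ∃ γ : C.A (X.prod X), C.Deg X.dim γ ∧ (H.cl x = 0 → H.cl γ = 0) ∧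
      ∃ u : C.A X, C.Deg i u ∧ C.act γ (C.act (π (2 * i)) u) = x := by
  rcases lt_or_ge X.dim i with hi | hi
  · have h0 : x = 0 := hC.gr_top X i x hx (by exact_mod_cast hi)
    refine ⟨0, Submodule.zero_mem _, fun _ => map_zero _, 0, Submodule.zero_mem _, ?_⟩
    rw [TheoryData.act_zero, h0]
  · obtain ⟨u0, hu0, v0, hv0, huv⟩ := exists_dual_pair (C := C) (H := H) X (l := i) hi
    refine ⟨C.ext v0 x, ?_, ?_, u0, hu0, ?_⟩
    · have := ext_mem (C := C) (H := H) hv0 hx
      rwa [sub_add_cancel] at this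
    · intro hcl
      rw [TheoryData.ext, map_mul, H.cl_pull (snd X X) x, hcl, map_zero, mul_zero]
    · rw [act_ext (H := H)]
      have h2 : C.push (snd X X) (C.pull (fst X X) (v0 * C.act (π (2 * i)) u0)) = 1 := by
        rw [← huv]
        apply deg_eq_of_cl (H := H)
        · have := C.mul_mem hv0 (act_mem0 C (hπ.deg (2 * i)) hu0)
          rwa [sub_add_cancel] at this
        · have := C.mul_mem hv0 hu0
          rwa [sub_add_cancel] at this
        · rw [map_mul, map_mul, cl_act H]
          congr 1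
          have h3 := H.cl_mem hu0
          exact hπ.act_self (2 * i) _ (by exact_mod_cast h3)
      rw [h2, one_mul]

lemma act_comp3 {π γ ρ : C.A (X.prod X)} (x : C.A X) :
    C.act (C.comp (C.comp π γ) ρ) x = C.act ρ (C.act γ (C.act π x)) := by
  rw [C.act_comp, C.act_comp]

/-- Not raising the weights implies the first half of (B). -/
lemma murreB0_of_doesNotRaise (X : 𝒱.Obj) (h : DoesNotRaise H X) : MurreB0 H X := by
  rw [murreB0_iff]
  intro π hπ i j x hx hj
  obtain ⟨γ, hγ, _, u, _, hu⟩ := exists_corr X hx hπ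
  rw [← hu, ← act_comp3 (H := H), h π π hπ hπ γ hγ (2 * i) j hj, TheoryData.act_zero]

/-- Not raising the weights implies (C). -/
lemma murreC_of_doesNotRaise (X : 𝒱.Obj) (h : DoesNotRaise H X) : MurreC H X := by
  have key : ∀ π π', IsCK H X π → IsCK H X π' → ∀ i n : ℕ, ckFil C π i n ≤ ckFil C π' i n := by
    intro π π' hπ hπ' i n x hx
    rw [hπ.mem_ckFil] at hx
    rw [hπ'.mem_ckFil]
    refine ⟨hx.1, fun m hm => ?_⟩
    have h1 : x = ∑ j ∈ Finset.range (2 * X.dim + 1), C.act (π j) x := by
      rw [← act_sum, hπ.sum, act_dg]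
    rw [h1, act_map_sum]
    apply Finset.sum_eq_zero
    intro j _
    by_cases hj : 2 * i + 1 - n ≤ j
    · rw [hx.2 j hj, TheoryData.act_map_zero]
    · have h2 := h π π' hπ hπ' (dg C X) (dg_mem C X) j m (by omega)
      rw [comp_dg] at h2
      rw [← C.act_comp, h2, TheoryData.act_zero]
  intro π π' hπ hπ' i n
  exact le_antisymm (key π π' hπ hπ' i n) (key π' π hπ' hπ i n)

/-- Strictly lowering implies (D). -/
lemma murreD_of_strictlyLowers (X : 𝒱.Obj) (h : StrictlyLowers H X) : MurreD H X := by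
  intro π hπ i x
  rw [hπ.mem_ckFil]
  constructor
  · rintro ⟨hx, h'⟩
    refine ⟨hx, ?_⟩
    have h1 := hπ.act_self (2 * i) (H.cl x) (by
      have := H.cl_mem hx
      push_cast
      exact this)
    rw [← cl_act H, h' (2 * i) (by omega), map_zero] at h1
    exact h1.symm
  · rintro ⟨hx, hcl⟩
    refine ⟨hx, fun j hj => ?_⟩
    obtain ⟨γ, hγ, hγcl, u, _, hu⟩ := exists_corr X hx hπ
    rw [← hu, ← act_comp3 (H := H), h π hπ γ hγ (hγcl hcl) (2 * i) j (by omega),
      TheoryData.act_zero]

/-- The ideal of homologically trivial correspondences preserves the filtration if it does not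
raise the weights. -/
lemma act_mem_ckFil {π : ℕ → C.A (X.prod X)} (hπ : IsCK H X π) (h : HomDoesNotRaise H X π)
    {γ : C.A (X.prod X)} (hγ : C.Deg X.dim γ) (hcl : H.cl γ = 0) {i n : ℕ} {x : C.A X}
    (hx : x ∈ ckFil C π i n) : C.act γ x ∈ ckFil C π i n := by
  rw [hπ.mem_ckFil] at hx ⊢
  refine ⟨act_mem0 C hγ hx.1, fun b hb => ?_⟩
  have h1 : x = ∑ j ∈ Finset.range (2 * X.dim + 1), C.act (π j) x := by
    rw [← act_sum, hπ.sum, act_dg]
  rw [h1, act_map_sum, act_map_sum]
  apply Finset.sum_eq_zero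
  intro a _
  by_cases ha : 2 * i + 1 - n ≤ a
  · rw [hx.2 a ha, TheoryData.act_map_zero, TheoryData.act_map_zero]
  · exact h γ hγ hcl a b (by omega) i x hx.1

/-- Two Chow-Kunneth decompositions differ by a unit which is the identity up to a homologically
trivial correspondence. -/
lemma exists_conj (X : 𝒱.Obj) {N : ℕ} (hN : NilpotentOfIndex H X N) {π π' : ℕ → C.A (X.prod X)}
    (hπ : IsCK H X π) (hπ' : IsCK H X π') : ∃ s ν : Cor C X, ν ∈ cor0 C X ∧
      H.cl (X := X.prod X) ν = 0 ∧ s = 1 - ν ∧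
      ∀ i : ℕ, s * toC (π i) = toC (π' i) * s := by
  let P : ℕ → Cor C X := π
  have hP : IsCK H X P := hπ
  let Q : ℕ → Cor C X := π'
  have hQ : IsCK H X Q := hπ'
  let s : Cor C X := ∑ i ∈ Finset.range (2 * X.dim + 1), Q i * P i
  have hs : s ∈ cor0 C X := (cor0 C X).sum_mem fun i _ => (cor0 C X).mul_mem (hQ.deg i) (hP.deg i)
  have hsact : actH C X H s = LinearMap.id := by
    apply ext_gr H
    intro m a ha
    rw [LinearMap.id_apply]
    simp only [s]
    rw [map_sum, LinearMap.sum_apply]
    have e1 : ∀ i, actH C X H (Q i * P i) a = actH C X H (P i) a := by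
      intro i
      rw [map_mul, Module.End.mul_apply, hP.actH_eq' i m ha]
      split_ifs with hm
      · rw [hQ.actH_eq' i m ha, if_pos hm]
      · rw [map_zero]
    rw [Finset.sum_congr rfl fun i _ => e1 i, ← LinearMap.sum_apply, ← map_sum, hP.sum_eq,
      map_one]
    rfl
  refine ⟨s, 1 - s, (cor0 C X).sub_mem (cor0 C X).one_mem hs, ?_, by abel, ?_⟩
  · apply hom_zero_of_act H
    intro a
    have h1 : actH C X H (1 - s) a = 0 := by
      rw [map_sub, map_one, LinearMap.sub_apply, hsact]
      exact sub_self _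
    exact h1
  · intro i
    change s * P i = Q i * s
    simp only [s]
    rw [Finset.sum_mul, Finset.mul_sum]
    apply Finset.sum_congr rfl
    intro j _
    rw [mul_assoc, hP.mul_eq, ← mul_assoc (Q i), hQ.mul_eq]
    by_cases hij : j = i
    · subst hij
      rw [if_pos rfl, if_pos rfl]
    · rw [if_neg hij, if_neg (Ne.symm hij), mul_zero, zero_mul]

/-- **Independence, if homologically trivial correspondences do not raise the weights.** -/
lemma murreC_of_homDoesNotRaise (X : 𝒱.Obj) {N : ℕ} (hN : NilpotentOfIndex H X N)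
    {π : ℕ → C.A (X.prod X)} (hπ : IsCK H X π) (h : HomDoesNotRaise H X π) : MurreC H X := by
  -- comparison with `π`
  have key : ∀ π', IsCK H X π' → ∀ i n : ℕ, ckFil C π' i n = ckFil C π i n := by
    intro π' hπ' i n
    obtain ⟨s, ν, hν, hνcl, hsν, hs⟩ := exists_conj X hN hπ hπ'
    have hnil : ν ^ N = 0 := by
      have e1 : cL (C := C) (List.replicate N (ν : C.A (X.prod X))) = ν ^ N := cL_replicate _ N
      rw [← e1]
      refine hN _ (List.length_replicate ..) ?_
      intro γ hγ
      rw [List.eq_of_mem_replicate hγ]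
      exact ⟨hν, hνcl⟩
    let t : Cor C X := ∑ m ∈ Finset.range N, ν ^ m
    have hst : s * t = 1 := by
      rw [hsν]
      simp only [t]
      rw [mul_neg_geom_sum, hnil, sub_zero]
    have hts : t * s = 1 := by
      rw [hsν]
      simp only [t]
      rw [geom_sum_mul_neg, hnil, sub_zero]
    have hact : ∀ (a b : Cor C X) (z : C.A X), actC C X (a * b) z = actC C X a (actC C X b z) :=
      fun a b z => by rw [map_mul]; rfl
    -- `ν`, `s` and `t` preserve the filtration
    have hνF : ∀ x ∈ ckFil C π i n, actC C X ν x ∈ ckFil C π i n :=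
      fun x hx => act_mem_ckFil hπ h hν hνcl hx
    have hsF : ∀ x ∈ ckFil C π i n, actC C X s x ∈ ckFil C π i n := by
      intro x hx
      rw [hsν, map_sub, map_one, LinearMap.sub_apply]
      exact Submodule.sub_mem _ hx (hνF x hx)
    have hνpow : ∀ m : ℕ, ∀ x ∈ ckFil C π i n, actC C X (ν ^ m) x ∈ ckFil C π i n := by
      intro m
      induction m with
      | zero => intro x hx; rw [pow_zero, map_one]; exact hx
      | succ m ih =>
        intro x hx
        rw [pow_succ', hact]
        exact hνF _ (ih x hx)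
    have htF : ∀ x ∈ ckFil C π i n, actC C X t x ∈ ckFil C π i n := by
      intro x hx
      simp only [t]
      rw [map_sum, LinearMap.sum_apply]
      exact Submodule.sum_mem _ fun m _ => hνpow m x hx
    have hsm : s ∈ cor0 C X := by
      rw [hsν]; exact (cor0 C X).sub_mem (cor0 C X).one_mem hν
    have htm : t ∈ cor0 C X := (cor0 C X).sum_mem fun m _ => (cor0 C X).pow_mem hν m
    have hP' : ∀ (j : ℕ) (x : C.A X), C.act (π' j) (actC C X s x) =
        actC C X s (C.act (π j) x) := by
      intro j x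
      have h1 : actC C X (toC (π' j) * s) x = actC C X (s * toC (π j)) x := by
        rw [hs j]
      rw [hact, hact] at h1
      exact h1
    apply le_antisymm
    · intro x hx
      rw [hπ'.mem_ckFil] at hx
      -- `x = s (t x)` and `t x` lies in the filtration of `π`
      have h1 : actC C X s (actC C X t x) = x := by rw [← hact, hst, map_one]; rfl
      have h2 : actC C X t x ∈ ckFil C π i n := by
        rw [hπ.mem_ckFil]
        refine ⟨act_mem0 C htm hx.1, fun j hj => ?_⟩
        have h3 := hx.2 j hj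
        rw [← h1, hP'] at h3
        have h4 : actC C X t (actC C X s (C.act (π j) (actC C X t x))) = 0 := by
          rw [h3, map_zero]
        rw [← hact, hts, map_one] at h4
        exact h4
      rw [← h1]
      exact hsF _ h2
    · intro x hx
      rw [hπ'.mem_ckFil]
      have h1 : actC C X s (actC C X t x) = x := by rw [← hact, hst, map_one]; rfl
      have h2 := htF x hx
      rw [hπ.mem_ckFil] at h2
      refine ⟨((hπ.mem_ckFil i n x).1 hx).1, fun j hj => ?_⟩
      rw [← h1, hP', h2.2 j hj, map_zero]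
  intro π₁ π₂ h₁ h₂ i n
  rw [key π₁ h₁, key π₂ h₂]

/-- **Independence implies that homologically trivial correspondences do not raise the weights.** -/
lemma homDoesNotRaise_of_C (X : 𝒱.Obj) (hCX : MurreC H X) {π : ℕ → C.A (X.prod X)}
    (hπ : IsCK H X π) : HomDoesNotRaise H X π := by
  intro γ hγ hcl a b hab i x hx
  have hB0 : MurreB0 H X := murreB0_of_C0 X fun π π' h h' i => hCX π π' h h' i 0
  rw [murreB0_iff] at hB0
  rcases lt_or_ge (2 * i) a with ha | ha
  · rw [hB0 π hπ i a x hx ha, TheoryData.act_map_zero, TheoryData.act_map_zero]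
  -- the nilpotent `n = π_b γ π_a`
  let P : ℕ → Cor C X := π
  have hP : IsCK H X P := hπ
  have hPm : ∀ i, P i ∈ cor0 C X := hπ.deg
  let g : Cor C X := toC γ
  have hg : g ∈ cor0 C X := hγ
  let n : Cor C X := P b * g * P a
  have hn : n ∈ cor0 C X := (cor0 C X).mul_mem ((cor0 C X).mul_mem (hPm _) hg) (hPm _)
  have hnn : n * n = 0 := by
    have : n * n = P b * g * (P a * P b) * g * P a := by
      simp only [n, mul_assoc]
    rw [this, hP.mul_eq, if_neg (by omega), mul_zero, zero_mul, zero_mul]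
  have hgact : actH C X H g = 0 := by
    apply LinearMap.ext
    intro c
    change H.act (H.cl γ) c = 0
    rw [hcl, TheoryData.act_zero]
  have hnact : ∀ c : H.A X, actH C X H n c = 0 := by
    intro c
    simp only [n]
    rw [map_mul, map_mul, hgact, mul_zero, zero_mul, LinearMap.zero_apply]
  have huv' : (1 + n) * (1 - n) = 1 := by
    rw [mul_sub, mul_one, add_mul, one_mul, hnn]; abel
  have hvu' : (1 - n) * (1 + n) = 1 := by
    rw [mul_add, mul_one, sub_mul, one_mul, hnn]; abel
  have hconj := hP.conj (u := 1 + n) (v := 1 - n) ((cor0 C X).add_mem (cor0 C X).one_mem hn)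
    ((cor0 C X).sub_mem (cor0 C X).one_mem hn) huv' hvu'
    (fun c => by rw [map_add, map_one, LinearMap.add_apply, hnact, add_zero]; rfl)
  have hF := hCX _ _ hconj hπ i (2 * i - a)
  have hact : ∀ (c d : Cor C X) (z : C.A X), actC C X (c * d) z = actC C X c (actC C X d z) :=
    fun c d z => by rw [map_mul]; rfl
  set w := C.act (π a) x with hw
  have hwm : w ∈ C.gr X i := act_mem0 C (hπ.deg _) hx
  have hPw : ∀ j, actC C X (P j) w = if j = a then w else 0 := by
    intro j
    have h1 : w = actC C X (P a) x := rfl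
    split_ifs with hj
    · rw [h1, ← hact, hj, hP.mul_eq, if_pos rfl]
    · rw [h1, ← hact, hP.mul_eq, if_neg hj, map_zero]
      rfl
  have hy : actC C X (1 + n) w ∈ ckFil C (fun j => ((1 + n) * P j * (1 - n) : Cor C X)) i
      (2 * i - a) := by
    rw [hconj.mem_ckFil]
    refine ⟨?_, fun j hj => ?_⟩
    · exact act_mem0 C ((cor0 C X).add_mem (cor0 C X).one_mem hn) hwm
    · have h2 : actC C X ((1 + n) * P j * (1 - n)) (actC C X (1 + n) w) = 0 := by
        rw [← hact]
        have h3 : (1 + n) * P j * (1 - n) * (1 + n) = (1 + n) * P j := by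
          rw [mul_assoc, hvu', mul_one]
        rw [h3, hact, hPw, if_neg (by omega), map_zero]
      exact h2
  rw [hF, hπ.mem_ckFil] at hy
  have h1 := hy.2 b (by omega)
  have h2 : actC C X (P b) (actC C X (1 + n) w) = 0 := h1
  rw [map_add, map_one, LinearMap.add_apply, map_add] at h2
  have h3 : actC C X (P b) ((1 : Module.End ℚ (C.A X)) w) = 0 := by
    have := hPw b
    rw [if_neg (by omega)] at this
    exact this
  rw [h3, zero_add, ← hact] at h2
  have h4 : P b * n = P b * (g * P a) := by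
    simp only [n]
    rw [← mul_assoc, ← mul_assoc, hP.mul_eq, if_pos rfl, mul_assoc]
  rw [h4, hact, hact, hPw a, if_pos rfl] at h2
  exact h2

/-- **(D) in the middle group.** -/
lemma midD_iff (X : 𝒱.Obj) : MidD H X ↔
    ∀ π ρ, IsCK H X π → IsCK H X ρ → ∀ γ : C.A (X.prod X), C.Deg X.dim γ → H.cl γ = 0 →
      ∀ a b : ℕ, a ≤ b → C.comp (C.comp (π a) γ) (ρ b) = 0 := by
  constructor
  · intro h π ρ hπ hρ γ hγ hcl a b hab
    by_cases ha : a ≤ 2 * X.dim
    · apply comp_zero_of_prod (H := H) hπ hρ ha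
      have h1 := h π ρ hπ hρ γ hγ hcl
      rw [dprod_eq, (hπ.dual.prod hρ).mem_ckFil] at h1
      exact h1.2 _ (by omega)
    · rw [hπ.out a (by omega), zero_comp, zero_comp]
  · intro h π ρ hπ hρ γ hγ hcl
    rw [dprod_eq, (hπ.dual.prod hρ).mem_ckFil]
    refine ⟨hγ, fun n hn => ?_⟩
    rw [← dprod_eq, act_dprod (H := H)]
    apply Finset.sum_eq_zero
    intro i _
    split_ifs with hi
    · exact h π ρ hπ hρ γ hγ hcl _ _ (by omega)
    · rfl

lemma strictlyLowers_of_midD (X : 𝒱.Obj) (h : MidD H X) : StrictlyLowers H X :=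
  fun π hπ γ hγ hcl a b hab => (midD_iff X).1 h π π hπ hπ γ hγ hcl a b hab

lemma homDoesNotRaise_of_strictlyLowers (X : 𝒱.Obj) (h : StrictlyLowers H X)
    {π : ℕ → C.A (X.prod X)} (hπ : IsCK H X π) : HomDoesNotRaise H X π := by
  intro γ hγ hcl a b hab i x _
  rw [← act_comp3 (H := H), h π hπ γ hγ hcl a b hab.le, TheoryData.act_zero]

lemma murreC_of_strictlyLowers (X : 𝒱.Obj) (h : StrictlyLowers H X) : MurreC H X := by
  intro π π' hπ hπ'
  exact murreC_of_homDoesNotRaise X (nilpotent_of_strictlyLowers X ⟨π, hπ⟩ h) hπ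
    (homDoesNotRaise_of_strictlyLowers X h hπ) π π' hπ hπ'

end Pool.Agent.V1157.MJ
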